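import Pool.Agent.Helper71.ISL.Defs

/-! # Project ISL (MP_d629b1_an): module CUT, a pair of smooth cutoff functions -/

set_option autoImplicit false

open Set Filter Topology
open scoped ContDiff ComplexConjugate

noncomputable section

namespace Pool.Agent.Helper31.ISL

open Pool.Agent.Helper71.ISL

theorem hCUT : StCUT := by
  intro ρ₀ ρ₁ h0 h1
  have hd : 0 < ρ₁ ^ 2 - ρ₀ ^ 2 := by nlinarith
  set θ : ℂ → ℝ := fun x =>
    Real.pi / 2 * Real.smoothTransition ((‖x‖ ^ 2 - ρ₀ ^ 2) / (ρ₁ ^ 2 - ρ₀ ^ 2)) with hθ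
  have hs : ContDiff ℝ ∞ θ := by
    refine contDiff_const.mul (Real.smoothTransition.contDiff.comp ?_)
    exact ((contDiff_norm_sq ℝ).sub contDiff_const).div_const _
  refine ⟨fun x => Real.cos (θ x) ^ 2, fun x => Real.cos (θ x) * Real.sin (θ x),
    (Real.contDiff_cos.comp hs).pow 2,
    (Real.contDiff_cos.comp hs).mul (Real.contDiff_sin.comp hs), ?_, ?_, ?_⟩
  · intro x hx
    have e : θ x = 0 := by
      simp only [hθ]
      rw [Real.smoothTransition.zero_of_nonpos, mul_zero]
      apply div_nonpos_of_nonpos_of_nonneg _ hd.le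
      have := pow_le_pow_left₀ (norm_nonneg x) hx 2
      linarith
    simp [e]
  · intro x hx
    have e : θ x = Real.pi / 2 := by
      simp only [hθ]
      rw [Real.smoothTransition.one_of_one_le, mul_one]
      rw [le_div_iff₀ hd, one_mul]
      have := pow_le_pow_left₀ (by linarith) hx 2
      linarith
    simp [e]
  · intro x
    have := Real.sin_sq_add_cos_sq (θ x)
    have h2 : Real.sin (θ x) ^ 2 = 1 - Real.cos (θ x) ^ 2 := by linarith
    calc Real.cos (θ x) ^ 2 * Real.cos (θ x) ^ 2 +
          Real.cos (θ x) * Real.sin (θ x) * (Real.cos (θ x) * Real.sin (θ x))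
        = Real.cos (θ x) ^ 2 * (Real.cos (θ x) ^ 2 + Real.sin (θ x) ^ 2) := by ring
      _ = _ := by rw [h2]; ring

end Pool.Agent.Helper31.ISL
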