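import Pool.Agent.Helper71.ISL.Defs

/-! # Project ISL (MP_d629b1_an): module GAS, general assembly -/

set_option autoImplicit false

open Set Filter Topology
open scoped ContDiff ComplexConjugate

noncomputable section

namespace Pool.Agent.Helper31.ISL

open Pool.Agent.Helper54.TRI (PatC)
open Pool.Agent.Helper71.ISL

private theorem nz_GAS {β : ℂ} (hβ : 1 < ‖β‖) : β ≠ 0 := by
  rintro rfl
  rw [norm_zero] at hβ
  linarith

section

variable {β : ℂ} {Γ : ℤ → ℂ → Prop} {S : Finset ℤ} {Z : Set ℂ} {T : ℤ → ℂ → ℂ → ℝ}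
  {Λ : Finset ℂ} {c : ℂ → ℝ} {K : ℂ → ℂ → ℝ}

private theorem mul_zero_GAS (hβ : 1 < ‖β‖) (m : ℤ) (v : ℂ) : β ^ m * v = 0 ↔ v = 0 := by
  constructor
  · intro h
    rcases mul_eq_zero.1 h with h | h
    · exact absurd h (zpow_ne_zero _ (nz_GAS hβ))
    · exact h
  · rintro rfl
    exact mul_zero _

private theorem inv_GAS (hβ : 1 < ‖β‖) (j : ℤ) (y : ℂ) : β ^ (-j) * (β ^ j * y) = y := by
  rw [← mul_assoc, ← zpow_add₀ (nz_GAS hβ)]
  simp

private theorem key_GAS (hβ : 1 < ‖β‖) (h : ZonK β Γ S Z T Λ c K) {x : ℂ} {j : ℤ}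
    (hj : β ^ j * x ∈ Z) (v : ℂ) : K x v = T j (β ^ j * x) (β ^ j * v) := by
  have := h.zone _ hj j (β ^ j * v)
  rwa [inv_GAS hβ, inv_GAS hβ] at this

private theorem zero_GAS (h : ZonK β Γ S Z T Λ c K) (v : ℂ) : K 0 v = 0 := by
  obtain ⟨ε, hε, hn⟩ := h.near
  exact hn 0 v (by rw [norm_zero]; exact hε.le)

private theorem shift_GAS (h : ZonK β Γ S Z T Λ c K) {x v : ℂ} {j : ℤ} (hj : β ^ j * x ∈ Z)
    (hne : T j (β ^ j * x) (β ^ j * v) ≠ 0) : β ^ j * (x + v) ∈ Z := by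
  rw [mul_add]
  exact (h.supp _ hj j _ hne).2.2

/-- nonzero values off the diagonal are in the zone case -/
private theorem val_GAS (hβ : 1 < ‖β‖) (h : ZonK β Γ S Z T Λ c K) {x v : ℂ} (hv : v ≠ 0)
    (hne : K x v ≠ 0) : ∃ j : ℤ, β ^ j * x ∈ Z ∧ T j (β ^ j * x) (β ^ j * v) ≠ 0 := by
  have hx : x ≠ 0 := by
    rintro rfl
    exact hne (zero_GAS h v)
  by_cases hz : ∃ j : ℤ, β ^ j * x ∈ Z
  · obtain ⟨j, hj⟩ := hz
    rw [key_GAS hβ h hj] at hne
    exact ⟨j, hj, hne⟩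
  · push Not at hz
    rw [h.pure x hx hz, if_neg hv] at hne
    exact absurd rfl hne

private theorem symm1_GAS (hβ : 1 < ‖β‖) (h : ZonK β Γ S Z T Λ c K) (x v : ℂ)
    (hne : K x v ≠ 0) : K (x + v) (-v) = K x v := by
  by_cases hv : v = 0
  · subst hv
    rw [add_zero, neg_zero]
  obtain ⟨j, hj, hT⟩ := val_GAS hβ h hv hne
  rw [key_GAS hβ h hj, key_GAS hβ h (shift_GAS h hj hT), mul_add, mul_neg, h.symm]

private theorem symm_GAS (hβ : 1 < ‖β‖) (h : ZonK β Γ S Z T Λ c K) (x v : ℂ) :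
    K (x + v) (-v) = K x v := by
  by_cases h1 : K x v = 0
  · by_cases h2 : K (x + v) (-v) = 0
    · rw [h1, h2]
    · have := symm1_GAS hβ h (x + v) (-v) h2
      rw [add_neg_cancel_right, neg_neg] at this
      exact this.symm
  · exact symm1_GAS hβ h x v h1

private theorem idem_GAS (hβ : 1 < ‖β‖) (h : ZonK β Γ S Z T Λ c K) (Λ' : Finset ℂ)
    (hΛ' : ∀ x u, K x u ≠ 0 → u ∈ Λ') (x v : ℂ) :
    ∑ u ∈ Λ', K x u * K (x + u) (v - u) = K x v := by
  by_cases hx : x = 0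
  · subst hx
    rw [zero_GAS h]
    exact Finset.sum_eq_zero fun u _ => by rw [zero_GAS h, zero_mul]
  have e0 : ∑ u ∈ Λ', K x u * K (x + u) (v - u) = ∑ᶠ u, K x u * K (x + u) (v - u) := by
    rw [finsum_eq_sum_of_support_subset]
    intro u hu
    rw [Function.mem_support] at hu
    exact hΛ' x u (left_ne_zero_of_mul hu)
  rw [e0]
  by_cases hz : ∃ j : ℤ, β ^ j * x ∈ Z
  · obtain ⟨j, hj⟩ := hz
    have hk := key_GAS hβ h hj
    have hterm : ∀ u, K x u * K (x + u) (v - u) =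
        T j (β ^ j * x) (β ^ j * u) * T j (β ^ j * x + β ^ j * u) (β ^ j * v - β ^ j * u) := by
      intro u
      rw [hk u]
      by_cases hne : T j (β ^ j * x) (β ^ j * u) = 0
      · rw [hne, zero_mul, zero_mul]
      · rw [key_GAS hβ h (shift_GAS h hj hne), mul_add, mul_sub]
    have hne0 : β ^ j ≠ 0 := zpow_ne_zero _ (nz_GAS hβ)
    calc ∑ᶠ u, K x u * K (x + u) (v - u)
        = ∑ᶠ u, T j (β ^ j * x) (Equiv.mulLeft₀ (β ^ j) hne0 u) *
            T j (β ^ j * x + Equiv.mulLeft₀ (β ^ j) hne0 u)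
              (β ^ j * v - Equiv.mulLeft₀ (β ^ j) hne0 u) := finsum_congr fun u => hterm u
      _ = ∑ᶠ w, T j (β ^ j * x) w * T j (β ^ j * x + w) (β ^ j * v - w) :=
          finsum_comp_equiv (Equiv.mulLeft₀ (β ^ j) hne0)
            (f := fun w => T j (β ^ j * x) w * T j (β ^ j * x + w) (β ^ j * v - w))
      _ = ∑ w ∈ Λ, T j (β ^ j * x) w * T j (β ^ j * x + w) (β ^ j * v - w) := by
          rw [finsum_eq_sum_of_support_subset]
          intro w hw
          rw [Function.mem_support] at hw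
          exact (h.supp _ hj _ _ (left_ne_zero_of_mul hw)).1
      _ = T j (β ^ j * x) (β ^ j * v) := h.idem _ hj _ _
      _ = K x v := (hk v).symm
  · push Not at hz
    have hp := h.pure x hx hz
    rw [finsum_eq_single _ (0 : ℂ)]
    · rw [add_zero, sub_zero, hp 0, hp v, if_pos rfl]
      by_cases hv : v = 0
      · rw [if_pos hv, h.cidem]
      · rw [if_neg hv, mul_zero]
    · intro u hu
      rw [hp u, if_neg hu, zero_mul]

private theorem tele_GAS (hβ : 1 < ‖β‖) (h : ZonK β Γ S Z T Λ c K) (x v : ℂ) (hx : x ≠ 0) :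
    ∑ᶠ i : ℤ, K (β ^ (-i) * x) (β ^ (-i) * v) = if v = 0 then 1 else 0 := by
  have hb := nz_GAS hβ
  have e0 : ∀ (a i : ℤ) (y : ℂ), β ^ (a + i) * (β ^ (-i) * y) = β ^ a * y := by
    intro a i y
    rw [← mul_assoc, ← zpow_add₀ hb]
    congr 2
    ring
  by_cases hz : ∃ j : ℤ, β ^ j * x ∈ Z
  · obtain ⟨j, hj⟩ := hz
    have e1 : ∀ i : ℤ, K (β ^ (-i) * x) (β ^ (-i) * v) =
        T (i + j) (β ^ j * x) (β ^ j * v) := by
      intro i
      have hj2 : β ^ (j + i) * (β ^ (-i) * x) ∈ Z := by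
        rw [e0]
        exact hj
      rw [key_GAS hβ h hj2, e0, e0, add_comm]
    calc ∑ᶠ i : ℤ, K (β ^ (-i) * x) (β ^ (-i) * v)
        = ∑ᶠ i : ℤ, T (Equiv.addRight j i) (β ^ j * x) (β ^ j * v) :=
          finsum_congr fun i => e1 i
      _ = ∑ᶠ l : ℤ, T l (β ^ j * x) (β ^ j * v) :=
          finsum_comp_equiv (Equiv.addRight j) (f := fun l => T l (β ^ j * x) (β ^ j * v))
      _ = ∑ l ∈ S, T l (β ^ j * x) (β ^ j * v) := by
          rw [finsum_eq_sum_of_support_subset]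
          intro l hl
          rw [Function.mem_support] at hl
          by_contra hS
          exact hl (h.labs _ hj l hS _)
      _ = if v = 0 then 1 else 0 := by
          rw [h.sum _ hj]
          simp only [mul_zero_GAS hβ]
  · push Not at hz
    have e1 : ∀ i : ℤ, K (β ^ (-i) * x) (β ^ (-i) * v) =
        (if v = 0 then 1 else 0) * c (β ^ (-i) * x) := by
      intro i
      rw [h.pure (β ^ (-i) * x) (fun hc => hx ((mul_zero_GAS hβ (-i) x).1 hc)) ?_]
      · simp only [mul_zero_GAS hβ]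
        split_ifs
        · rw [one_mul]
        · rw [zero_mul]
      · intro k
        have : k = (k - i) + i := by ring
        rw [this, e0]
        exact hz _
    rw [finsum_congr e1]
    by_cases hv : v = 0
    · simp only [if_pos hv, one_mul]
      exact h.csum x hx hz
    · simp only [if_neg hv, zero_mul]
      exact finsum_zero

end

theorem hGAS : StGAS := by
  intro β Γ S Z T Λ c K hβ hΓ0 hcov h
  have hfin : {v : ℂ | ∃ x, K x v ≠ 0}.Finite := by
    refine Set.Finite.subset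
      (s := insert 0 (⋃ m ∈ S, (fun v => β ^ (-m) * v) '' (Λ : Set ℂ))) ?_ ?_
    · exact (S.finite_toSet.biUnion fun m _ => Λ.finite_toSet.image _).insert 0
    · rintro v ⟨x, hx⟩
      by_cases hv : v = 0
      · exact Or.inl hv
      right
      obtain ⟨j, hj, hne⟩ := val_GAS hβ h hv hx
      rw [mem_iUnion₂]
      refine ⟨j, ?_, β ^ j * v, (h.supp _ hj _ _ hne).1, inv_GAS hβ j v⟩
      by_contra hS
      exact hne (h.labs _ hj j hS _)
  have hsub : ∀ x v, K x v ≠ 0 → v ∈ hfin.toFinset := by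
    intro x v hx
    rw [Set.Finite.mem_toFinset]
    exact ⟨x, hx⟩
  obtain ⟨ε, hε, hnear⟩ := h.near
  obtain ⟨R, hfar⟩ := h.far
  refine ⟨hfin.toFinset, ε, R, h.smooth, hsub, ?_, hε, hnear, hfar, symm_GAS hβ h,
    idem_GAS hβ h _ hsub, fun x v hx => tele_GAS hβ h x v hx⟩
  intro v hv
  rw [Set.Finite.mem_toFinset] at hv
  obtain ⟨x, hx⟩ := hv
  by_cases hv0 : v = 0
  · rw [hv0]
    exact hΓ0
  obtain ⟨j, hj, hne⟩ := val_GAS hβ h hv0 hx
  have h2 := hcov j (-j) _ (h.supp _ hj _ _ hne).2.1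
  rwa [inv_GAS hβ, add_neg_cancel] at h2

end Pool.Agent.Helper31.ISL
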