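import Pool.Agent.Helper71.ISL.Defs

/-! # Project ISL (MP_d629b1_an): module PW, powers of an irreducible cubic number -/

set_option autoImplicit false

open Set Filter Topology
open scoped ContDiff ComplexConjugate

noncomputable section

namespace Pool.Agent.Helper31.ISL

open Pool.Agent.Helper71.ISL Pool.Agent.Helper56.UN
open scoped IntermediateField

private theorem f_natDegree (p q r : ℚ) : (Polynomial.X ^ 3 + Polynomial.C p * Polynomial.X ^ 2 +
    Polynomial.C q * Polynomial.X + Polynomial.C r : Polynomial ℚ).natDegree = 3 := by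
  compute_degree!

private theorem f_monic (p q r : ℚ) : (Polynomial.X ^ 3 + Polynomial.C p * Polynomial.X ^ 2 +
    Polynomial.C q * Polynomial.X + Polynomial.C r : Polynomial ℚ).Monic := by
  monicity!

private theorem f_irr (p q r : ℚ) (hx : ∀ x : ℚ, x ^ 3 + p * x ^ 2 + q * x + r ≠ 0) :
    Irreducible (Polynomial.X ^ 3 + Polynomial.C p * Polynomial.X ^ 2 +
      Polynomial.C q * Polynomial.X + Polynomial.C r : Polynomial ℚ) := by
  rw [Polynomial.irreducible_iff_roots_eq_zero_of_degree_le_three
    (by rw [f_natDegree]; norm_num) (by rw [f_natDegree])]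
  rw [Multiset.eq_zero_iff_forall_notMem]
  intro x hmem
  have h1 := (Polynomial.mem_roots'.1 hmem).2
  have h2 : x ^ 3 + p * x ^ 2 + q * x + r = 0 := by
    simpa [Polynomial.IsRoot] using h1
  exact hx x h2

theorem hPW : StPW := by
  intro β p q r t hC n hn
  have hirr := f_irr p q r hC.irr
  have hmon := f_monic p q r
  have haev : Polynomial.aeval β (Polynomial.X ^ 3 + Polynomial.C p * Polynomial.X ^ 2 +
      Polynomial.C q * Polynomial.X + Polynomial.C r : Polynomial ℚ) = 0 := by
    simp only [map_add, map_mul, map_pow, Polynomial.aeval_X, Polynomial.aeval_C]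
    exact hC.cub
  have hmin := minpoly.eq_of_irreducible_of_monic hirr haev hmon
  have hint : IsIntegral ℚ β := ⟨_, hmon, haev⟩
  have hfr : Module.finrank ℚ ℚ⟮β⟯ = 3 := by
    rw [IntermediateField.adjoin.finrank hint, ← hmin, f_natDegree]
  have : FiniteDimensional ℚ ℚ⟮β⟯ := IntermediateField.adjoin.finiteDimensional hint
  have hmem : β ^ n ∈ ℚ⟮β⟯ := pow_mem (IntermediateField.mem_adjoin_simple_self ℚ β) n
  have hγ : IsIntegral ℚ (⟨β ^ n, hmem⟩ : ℚ⟮β⟯) := IsIntegral.of_finite ℚ _
  have hdvd := minpoly.degree_dvd hγ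
  rw [hfr] at hdvd
  have hmp : minpoly ℚ (⟨β ^ n, hmem⟩ : ℚ⟮β⟯) = minpoly ℚ (β ^ n) := by
    have := minpoly.algebraMap_eq (A := ℚ) (B := ℚ⟮β⟯) (B' := ℂ)
      (FaithfulSMul.algebraMap_injective ℚ⟮β⟯ ℂ) ⟨β ^ n, hmem⟩
    rw [← this]
    rfl
  rw [hmp] at hdvd
  have hint' : IsIntegral ℚ (β ^ n) := hint.pow n
  have hne1 : (minpoly ℚ (β ^ n)).natDegree ≠ 1 := by
    intro h1
    have h2 := minpoly.natDegree_eq_one_iff.1 h1
    obtain ⟨x, hx⟩ := h2
    exact hC.nrat n hn x (by rw [← hx]; rfl)
  have h3 : (minpoly ℚ (β ^ n)).natDegree = 3 := by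
    rcases (Nat.dvd_prime Nat.prime_three).1 hdvd with h | h
    · exact absurd h hne1
    · exact h
  set P := minpoly ℚ (β ^ n) with hP
  have hPm : P.Monic := minpoly.monic hint'
  have hPi : Irreducible P := minpoly.irreducible hint'
  have hc3 : P.coeff 3 = 1 := by
    rw [← h3]
    exact hPm.coeff_natDegree
  refine ⟨P.coeff 2, P.coeff 1, P.coeff 0, ?_, ?_⟩
  · have h4 := minpoly.aeval ℚ (β ^ n)
    rw [← hP, Polynomial.aeval_eq_sum_range, h3] at h4
    simp only [Finset.sum_range_succ, Finset.sum_range_zero, hc3, Algebra.smul_def,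
      eq_ratCast, Rat.cast_one] at h4
    linear_combination h4
  · intro x hx
    have h5 : P.IsRoot x := by
      rw [Polynomial.IsRoot, Polynomial.eval_eq_sum_range, h3]
      simp only [Finset.sum_range_succ, Finset.sum_range_zero, hc3]
      linear_combination hx
    have h6 := Polynomial.degree_eq_one_of_irreducible_of_root hPi h5
    have h7 : P.natDegree = 1 := Polynomial.natDegree_eq_of_degree_eq_some h6
    rw [h3] at h7
    exact absurd h7 (by norm_num)

end Pool.Agent.Helper31.ISL
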